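import Pool.Agent.LibZpIndexK.Upper

set_option autoImplicit false
open Topology Pool.Agent.LibZpIndex Pool.Agent.LibZpIndexK

namespace Pool.Agent.Results.MP_b3a110_an.CoindexLinear

/-- For every `k` there is a fixed-point free dynamical system `(X, T)` on a compact metrizable
space such that for every prime `p` the space of points with `T^p x = x` receives a continuous
equivariant map from the `(n + 1)`-fold join `EZ n p` of `ZMod p` if `n + 1 ≤ k (p - 1)`, and
receives none if `n > k (p + 1) + 1`. Hence its coindex lies between `k (p - 1) - 1` and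
`k (p + 1) + 1`. -/
theorem result : ∀ k : ℕ, ∃ (X : Type) (_ : TopologicalSpace X) (_ : CompactSpace X)
    (_ : TopologicalSpace.MetrizableSpace X) (T : X ≃ₜ X), (∀ x, T x ≠ x) ∧
    ∀ (p : ℕ) [Fact p.Prime] (n : ℕ),
      (n + 1 ≤ k * (p - 1) → ∃ f : EZ n p → {x : X // (T : X → X)^[p] x = x},
        Continuous f ∧ ∀ x, (f (act x)).1 = T (f x).1) ∧
      (k * (p + 1) + 1 < n → ¬ ∃ f : EZ n p → {x : X // (T : X → X)^[p] x = x},
        Continuous f ∧ ∀ x, (f (act x)).1 = T (f x).1) := by
  intro k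
  refine ⟨Xk k, inferInstance, inferInstance, inferInstance, shiftK, shift_ne, ?_⟩
  intro p _ n
  refine ⟨fun hn => ⟨fun x => ⟨toXk hn x, toXk_periodic hn x⟩,
    (continuous_toXk hn).subtype_mk _, fun x => toXk_act hn x⟩, ?_⟩
  rintro hn ⟨f, hf, hfa⟩
  obtain ⟨F, hF, hFa⟩ := upper (p := p) k
  refine no_equivariant_lt hn ⟨fun x => F (f x), hF.comp hf, fun x => ?_⟩
  have h1 : f (act x) = tau (f x) := Subtype.ext (hfa x)
  show F (f (act x)) = act (F (f x))
  rw [h1, hFa]

end Pool.Agent.Results.MP_b3a110_an.CoindexLinear
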