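import Pool.Agent.LibZpIndexK.Upper

set_option autoImplicit false
open Topology Pool.Agent.LibZpIndex Pool.Agent.LibZpIndexK

namespace Pool.Agent.Results.MP_b3a110_an.IndexLinear

/-- For every `k` there is a fixed-point free dynamical system `(X, T)` on a compact metrizable
space such that for every prime `p` the space of points with `T^p x = x` has no continuous
equivariant map to the `(n + 1)`-fold join `EZ n p` of `ZMod p` if `n + 1 < k (p - 1)`, and has one
if `n ≥ k (p + 1) + 1`. Hence its index lies between `k (p - 1) - 1` and `k (p + 1) + 1`. -/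
theorem result : ∀ k : ℕ, ∃ (X : Type) (_ : TopologicalSpace X) (_ : CompactSpace X)
    (_ : TopologicalSpace.MetrizableSpace X) (T : X ≃ₜ X), (∀ x, T x ≠ x) ∧
    ∀ (p : ℕ) [Fact p.Prime] (n : ℕ),
      (n + 1 < k * (p - 1) → ¬ ∃ f : {x : X // (T : X → X)^[p] x = x} → EZ n p,
        Continuous f ∧ ∀ x y : {x : X // (T : X → X)^[p] x = x}, y.1 = T x.1 → f y = act (f x)) ∧
      (k * (p + 1) + 1 ≤ n → ∃ f : {x : X // (T : X → X)^[p] x = x} → EZ n p,
        Continuous f ∧ ∀ x y : {x : X // (T : X → X)^[p] x = x}, y.1 = T x.1 → f y = act (f x)) := by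
  intro k
  refine ⟨Xk k, inferInstance, inferInstance, inferInstance, shiftK, shift_ne, ?_⟩
  intro p _ n
  constructor
  · rintro hn ⟨f, hf, hact⟩
    have hn' : n + 1 + 1 ≤ k * (p - 1) := hn
    refine no_equivariant_succ (fun x : EZ (n + 1) p => f ⟨toXk hn' x, toXk_periodic hn' x⟩) ?_ ?_
    · exact hf.comp ((continuous_toXk hn').subtype_mk _)
    · intro x
      exact hact _ _ (toXk_act hn' x)
  · intro hn
    obtain ⟨F, hF, hFa⟩ := upper (p := p) k
    obtain ⟨G, hG, hGa⟩ := join_incl (p := p) hn
    refine ⟨fun x => G (F x), hG.comp hF, fun x y hxy => ?_⟩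
    have h1 : y = tau x := Subtype.ext hxy
    show G (F y) = act (G (F x))
    rw [h1, hFa, hGa]

end Pool.Agent.Results.MP_b3a110_an.IndexLinear
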